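import Pool.Agent.H16.Smp3

set_option autoImplicit false

open MeasureTheory Laplacian

namespace Pool.Agent.Results.MP_1d8377_an.Disproof

/-- In every dimension `N ≥ 1` and for every connected open `Ω ⊆ ℝ^N` there are a measurable
`V ≥ 0` with `V^{1/2} ∈ L^p(Ω)` for all `0 < p < 2` at once, and a function `u ≢ 0` satisfying all
the hypotheses of the problem (continuous, nonnegative, integrable, `V u ∈ L^1(Ω)`,
`Δ u ≤ V u` in the sense of distributions in `Ω`, and support compact in `Ω`). -/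
theorem result (N : ℕ) (hN : 1 ≤ N) (Ω : Set (EuclideanSpace ℝ (Fin N))) (hΩ : IsOpen Ω)
    (hconn : IsConnected Ω) :
    ∃ V u : EuclideanSpace ℝ (Fin N) → ℝ,
      Measurable V ∧ (∀ x, 0 ≤ V x) ∧
      (∀ p : ℝ, 0 < p → p < 2 →
        MemLp (fun x => Real.sqrt (max (V x) 0)) (ENNReal.ofReal p) (volume.restrict Ω)) ∧
      Continuous u ∧ (∀ x, 0 ≤ u x) ∧ IntegrableOn u Ω ∧
      HasCompactSupport u ∧ tsupport u ⊆ Ω ∧
      IntegrableOn (fun x => V x * u x) Ω ∧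
      (∀ φ : EuclideanSpace ℝ (Fin N) → ℝ, ContDiff ℝ (⊤ : ℕ∞) φ → HasCompactSupport φ →
        tsupport φ ⊆ Ω → (∀ x, 0 ≤ φ x) →
          ∫ x in Ω, u x * (Δ φ) x ≤ ∫ x in Ω, V x * u x * φ x) ∧
      ∃ x ∈ Ω, u x ≠ 0 :=
  Pool.Agent.H16.Smp.main N hN Ω hΩ hconn.nonempty

end Pool.Agent.Results.MP_1d8377_an.Disproof
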